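import Pool.Agent.V1180.CIg

/-!
# MP_4d7ea7_an: the capacitary inradius and the Maz'ya-Shubin inradius are comparable

For all `1 < p < N` and all `0 < γ < 1` there are positive constants `c₁, c₂` with
`c₁ R^MS_{p,γ}(Ω) ≤ R_{p,γ}(Ω) ≤ c₂ R^MS_{p,γ}(Ω)` for every open set `Ω` of `ℝ^N`. More generally
this holds with two different parameters on the two sides.

The proof: if every ball `B` of radius `1` well inside of a ball `B_R` carries a fixed portion of
capacity of the complement of `Ω`, then a test function for the complement is close to `1` in `L^p(B_R)`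
(Maz'ya's inequality), an average of it is close to `1` uniformly on a slightly smaller ball, and its
energy is not larger; so the capacity of the complement in `B_R` is close to the one of `B_R`.
-/

set_option autoImplicit false

open MeasureTheory Set Metric
open scoped ENNReal

namespace Pool.Agent.Results.MP_4d7ea7_an.InradiiComparable

/-- The relative `p`-capacity `cap_p(S; E)`, with values in `[0, ∞]`: the infimum of `∫ |∇φ|^p` over all
smooth `φ` with compact support in `E` such that `φ ≥ 1` on `S`. -/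
noncomputable def relCap {N : ℕ} (p : ℝ) (S E : Set (EuclideanSpace ℝ (Fin N))) : ℝ≥0∞ :=
  ⨅ (φ : EuclideanSpace ℝ (Fin N) → ℝ) (_ : ContDiff ℝ (⊤ : ℕ∞) φ) (_ : HasCompactSupport φ)
    (_ : tsupport φ ⊆ E) (_ : ∀ x ∈ S, 1 ≤ φ x), ∫⁻ x, ENNReal.ofReal (‖fderiv ℝ φ x‖ ^ p)

/-- The absolute `p`-capacity. -/
noncomputable def absCap {N : ℕ} (p : ℝ) (S : Set (EuclideanSpace ℝ (Fin N))) : ℝ≥0∞ :=
  relCap p S univ

/-- The capacitary inradius `R_{p,γ}(Ω)`. -/
noncomputable def capInradius {N : ℕ} (p γ : ℝ) (Ω : Set (EuclideanSpace ℝ (Fin N))) : ℝ≥0∞ :=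
  ⨆ (r : ℝ) (_ : 0 < r) (_ : ∃ x₀ : EuclideanSpace ℝ (Fin N),
    relCap p (closedBall x₀ r \ Ω) (ball x₀ (2 * r)) ≤
      ENNReal.ofReal γ * relCap p (closedBall x₀ r) (ball x₀ (2 * r))), ENNReal.ofReal r

/-- The Maz'ya-Shubin inradius `R^MS_{p,γ}(Ω)`. -/
noncomputable def msInradius {N : ℕ} (p γ : ℝ) (Ω : Set (EuclideanSpace ℝ (Fin N))) : ℝ≥0∞ :=
  ⨆ (r : ℝ) (_ : 0 < r) (_ : ∃ x₀ : EuclideanSpace ℝ (Fin N),
    absCap p (closedBall x₀ r \ Ω) ≤ ENNReal.ofReal γ * absCap p (closedBall x₀ r)),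
    ENNReal.ofReal r

theorem relCap_eq {N : ℕ} {p : ℝ} (hp : 1 < p) (S E : Set (EuclideanSpace ℝ (Fin N))) :
    relCap p S E = V1180.CI.cap p S E := by
  have he : ∀ φ : EuclideanSpace ℝ (Fin N) → ℝ,
      ∫⁻ x, ENNReal.ofReal (‖fderiv ℝ φ x‖ ^ p) = V1180.CI.En p φ := by
    intro φ
    unfold V1180.CI.En
    congr 1
    funext x
    rw [← ofReal_norm, ENNReal.ofReal_rpow_of_nonneg (norm_nonneg _) (by linarith)]
  unfold relCap V1180.CI.cap
  simp only [he]
  refine le_antisymm ?_ ?_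
  · refine le_iInf₂ fun φ h => ?_
    exact iInf_le_of_le φ (iInf_le_of_le h.smooth (iInf_le_of_le h.cs (iInf_le_of_le h.supp
      (iInf_le_of_le h.one_le le_rfl))))
  · refine le_iInf fun φ => le_iInf fun h1 => le_iInf fun h2 => le_iInf fun h3 => le_iInf fun h4 => ?_
    exact iInf₂_le φ ⟨h1, h2, h3, h4⟩

/-- **Both inradii, for all pairs of parameters in `(0,1)`, are comparable.** -/
theorem two_parameters (N : ℕ) (p : ℝ) (hp : 1 < p) (hpN : p < N) (γ β : ℝ) (hγ0 : 0 < γ)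
    (hγ1 : γ < 1) (hβ0 : 0 < β) :
    ∃ C : ℝ, 0 < C ∧ ∀ Ω : Set (EuclideanSpace ℝ (Fin N)),
      max (capInradius p γ Ω) (msInradius p γ Ω) ≤
        ENNReal.ofReal C * min (capInradius p β Ω) (msInradius p β Ω) := by
  obtain ⟨R, hR, h⟩ := V1180.CI.main (N := N) hp hpN hγ0 hγ1 hβ0
  have hR0 : 0 < R := by linarith
  refine ⟨R, hR0, fun Ω => ?_⟩
  have key : ∀ (x0 : EuclideanSpace ℝ (Fin N)) (r : ℝ), 0 < r →
      (V1180.CI.cap p (closedBall x0 r \ Ω) (ball x0 (2 * r)) ≤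
        ENNReal.ofReal γ * V1180.CI.cap p (closedBall x0 r) (ball x0 (2 * r)) ∨
       V1180.CI.cap p (closedBall x0 r \ Ω) univ ≤
        ENNReal.ofReal γ * V1180.CI.cap p (closedBall x0 r) univ) →
      ENNReal.ofReal r ≤ ENNReal.ofReal R * min (capInradius p β Ω) (msInradius p β Ω) := by
    intro x0 r hr hc
    obtain ⟨z, r', hr', hrr, hz⟩ := h Ω x0 r hr hc
    have h1 : ENNReal.ofReal r' ≤ capInradius p β Ω := by
      unfold capInradius
      refine le_iSup_of_le r' (le_iSup_of_le hr' (le_iSup_of_le ⟨z, ?_⟩ le_rfl))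
      rw [relCap_eq hp, relCap_eq hp]
      exact hz.trans (mul_le_mul' le_rfl (V1180.CI.cap_mono le_rfl (subset_univ _)))
    have h2 : ENNReal.ofReal r' ≤ msInradius p β Ω := by
      unfold msInradius absCap
      refine le_iSup_of_le r' (le_iSup_of_le hr' (le_iSup_of_le ⟨z, ?_⟩ le_rfl))
      rw [relCap_eq hp, relCap_eq hp]
      exact (V1180.CI.cap_mono le_rfl (subset_univ _)).trans hz
    calc ENNReal.ofReal r ≤ ENNReal.ofReal (R * r') := ENNReal.ofReal_le_ofReal hrr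
      _ = ENNReal.ofReal R * ENNReal.ofReal r' := ENNReal.ofReal_mul hR0.le
      _ ≤ _ := mul_le_mul' le_rfl (le_min h1 h2)
  refine max_le ?_ ?_
  · conv_lhs => unfold capInradius
    refine iSup_le fun r => iSup_le fun hr => iSup_le fun hx => ?_
    obtain ⟨x0, hx0⟩ := hx
    rw [relCap_eq hp, relCap_eq hp] at hx0
    exact key x0 r hr (Or.inl hx0)
  · conv_lhs => unfold msInradius absCap
    refine iSup_le fun r => iSup_le fun hr => iSup_le fun hx => ?_
    obtain ⟨x0, hx0⟩ := hx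
    rw [relCap_eq hp, relCap_eq hp] at hx0
    exact key x0 r hr (Or.inr hx0)

/-- **Positive answer to Q1**, for all `N` and `1 < p < N` (first part). Second part: the same with two
different parameters, so that all these inradii are comparable with each other. -/
theorem result (N : ℕ) (p : ℝ) (hp : 1 < p) (hpN : p < N) :
    (∀ γ : ℝ, 0 < γ → γ < 1 → ∃ c₁ c₂ : ℝ, 0 < c₁ ∧ 0 < c₂ ∧
      ∀ Ω : Set (EuclideanSpace ℝ (Fin N)), IsOpen Ω →
        ENNReal.ofReal c₁ * msInradius p γ Ω ≤ capInradius p γ Ω ∧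
        capInradius p γ Ω ≤ ENNReal.ofReal c₂ * msInradius p γ Ω) ∧
    (∀ γ β : ℝ, 0 < γ → γ < 1 → 0 < β → β < 1 → ∃ C : ℝ, 0 < C ∧
      ∀ Ω : Set (EuclideanSpace ℝ (Fin N)),
        max (capInradius p γ Ω) (msInradius p γ Ω) ≤
          ENNReal.ofReal C * min (capInradius p β Ω) (msInradius p β Ω)) := by
  refine ⟨fun γ hγ0 hγ1 => ?_, fun γ β hγ0 hγ1 hβ0 _ => two_parameters N p hp hpN γ β hγ0 hγ1 hβ0⟩
  obtain ⟨C, hC, h⟩ := two_parameters N p hp hpN γ γ hγ0 hγ1 hγ0
  refine ⟨C⁻¹, C, inv_pos.2 hC, hC, fun Ω _ => ⟨?_, ?_⟩⟩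
  · have h1 : msInradius p γ Ω ≤ ENNReal.ofReal C * capInradius p γ Ω :=
      (le_max_right _ _).trans ((h Ω).trans (mul_le_mul' le_rfl (min_le_left _ _)))
    calc ENNReal.ofReal C⁻¹ * msInradius p γ Ω
        ≤ ENNReal.ofReal C⁻¹ * (ENNReal.ofReal C * capInradius p γ Ω) := mul_le_mul' le_rfl h1
      _ = capInradius p γ Ω := by
          rw [← mul_assoc, ← ENNReal.ofReal_mul (inv_nonneg.2 hC.le), inv_mul_cancel₀ hC.ne']
          simp
  · exact (le_max_left _ _).trans ((h Ω).trans (mul_le_mul' le_rfl (min_le_right _ _)))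

end Pool.Agent.Results.MP_4d7ea7_an.InradiiComparable
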